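import Pool.Agent.Helper46.T5.Stmts

set_option autoImplicit false

/-!
MP_2f9829_co (T5): the global lower bound of the gauge fixing function (module LOW1).
-/

open Finset MeasureTheory Filter Topology

namespace Pool.Agent.Helper37.T5

open Pool.Agent.Helper15.T4
open Pool.Agent.Helper46.T5

/-! ### Norms -/

theorem nsq_nonneg' {ι : Type} [Fintype ι] (x : ι → ℝ) : 0 ≤ nsq x :=
  Finset.sum_nonneg fun _ _ => sq_nonneg _

theorem sqrt_nsq_add {ι : Type} [Fintype ι] (x y : ι → ℝ) :
    Real.sqrt (nsq (fun a => x a + y a)) ≤ Real.sqrt (nsq x) + Real.sqrt (nsq y) := by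
  rw [Real.sqrt_le_iff]
  refine ⟨by positivity, ?_⟩
  have h1 : ∑ a, x a * y a ≤ Real.sqrt (∑ a, x a ^ 2) * Real.sqrt (∑ a, y a ^ 2) :=
    Real.sum_mul_le_sqrt_mul_sqrt _ _ _
  have h2 := Real.sq_sqrt (nsq_nonneg' x)
  have h3 := Real.sq_sqrt (nsq_nonneg' y)
  have h4 : nsq (fun a => x a + y a) = nsq x + 2 * ∑ a, x a * y a + nsq y := by
    unfold nsq
    rw [Finset.mul_sum, ← Finset.sum_add_distrib, ← Finset.sum_add_distrib]
    exact Finset.sum_congr rfl fun a _ => by ring
  rw [h4, add_sq, h2, h3]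
  have h5 : ∑ a, x a * y a ≤ Real.sqrt (nsq x) * Real.sqrt (nsq y) := h1
  linarith

theorem nsq_neg' {ι : Type} [Fintype ι] (x : ι → ℝ) : nsq (fun a => -x a) = nsq x := by
  unfold nsq
  exact Finset.sum_congr rfl fun a _ => by ring

/-! ### Continuity -/

theorem cont_nsq {ι : Type} [Fintype ι] : Continuous (fun x : ι → ℝ => nsq x) := by
  unfold nsq
  fun_prop

theorem cont_rho : Continuous rho := by
  unfold rho
  have h := cont_nsq (ι := Fin 3)
  refine Continuous.inv₀ (by fun_prop) fun v => ?_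
  have h0 : 0 < 1 + nsq v := by
    have := nsq_nonneg' v
    linarith
  positivity

theorem rho_pos (v : Fin 3 → ℝ) : 0 < rho v := by
  unfold rho
  have h0 : 0 < 1 + nsq v := by
    have := nsq_nonneg' v
    linarith
  positivity

theorem cont_Cay : Continuous Cay := by
  have h := cont_nsq (ι := Fin 3)
  have h1 : Continuous (fun v : Fin 3 → ℝ => (1 + nsq v)⁻¹) := by
    refine Continuous.inv₀ (by fun_prop) fun v => ?_
    have h0 : 0 < 1 + nsq v := by
      have := nsq_nonneg' v
      linarith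
    exact h0.ne'
  have h2 : Continuous (fun v : Fin 3 → ℝ => (1 - nsq v) • (1 : M3)) := by
    have h3 : Continuous (fun v : Fin 3 → ℝ => 1 - nsq v) := by fun_prop
    have h4 : Continuous (fun _ : Fin 3 → ℝ => (1 : M3)) := continuous_const
    exact h3.smul h4
  have h3 : Continuous (fun v : Fin 3 → ℝ => (2 : ℝ) • Matrix.vecMulVec v v) := by
    have h5 : Continuous (fun v : Fin 3 → ℝ => Matrix.vecMulVec v v) :=
      Continuous.matrix_vecMulVec continuous_id continuous_id
    exact (continuous_const (y := (2 : ℝ))).smul h5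
  have h4 : Continuous (fun v : Fin 3 → ℝ => (2 : ℝ) • skew v) := by
    have h5 : Continuous (fun v : Fin 3 → ℝ => skew v) := by
      unfold skew
      refine continuous_matrix fun i j => ?_
      fin_cases i <;> fin_cases j <;> simp <;> fun_prop
    exact (continuous_const (y := (2 : ℝ))).smul h5
  exact h1.smul ((h2.add h3).add h4)

theorem cont_ptCay {J : Type} {K : ℕ} (φ : Fin K × Fin 2 ≃ J) (a : J → Fin 3) :
    Continuous (fun v : Fin K → Fin 3 → ℝ => pt φ (fun p => Cay (v p)) a) := by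
  unfold pt
  refine continuous_finsetProd _ fun p _ => ?_
  refine Continuous.div_const ?_ _
  exact Continuous.matrix_elem (cont_Cay.comp (continuous_apply p)) _ _

theorem cont_dist {J : Type} [Fintype J] [DecidableEq J] {K : ℕ} (φ : Fin K × Fin 2 ≃ J)
    (s : ℝ) (x : (J → Fin 3) → ℝ) :
    Continuous (fun v : Fin K → Fin 3 → ℝ => nsq (fun a => x a - s * pt φ (fun p => Cay (v p)) a)) := by
  unfold nsq
  refine continuous_finsetSum _ fun a _ => ?_
  have := cont_ptCay φ a
  fun_prop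

theorem integrable_psi (hAV1 : ST_AV1) {J : Type} [Fintype J] [DecidableEq J] {K : ℕ}
    (φ : Fin K × Fin 2 ≃ J) (s : ℝ) (N : ℕ) (x : (J → Fin 3) → ℝ) :
    Integrable (fun v : Fin K → Fin 3 → ℝ =>
      Real.exp (-(N : ℝ) * nsq (fun a => x a - s * pt φ (fun p => Cay (v p)) a)) *
        ∏ p, rho (v p)) := by
  have h1 := (hAV1 K).2
  refine h1.mono' ?_ (Filter.Eventually.of_forall fun v => ?_)
  · have hc := cont_dist φ s x
    have hr : Continuous (fun v : Fin K → Fin 3 → ℝ => ∏ p, rho (v p)) :=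
      continuous_finsetProd _ fun p _ => cont_rho.comp (continuous_apply p)
    exact (Continuous.mul (Real.continuous_exp.comp (continuous_const.mul hc))
      hr).aestronglyMeasurable
  · have h2 : 0 ≤ ∏ p, rho (v p) := Finset.prod_nonneg fun p _ => (rho_pos _).le
    have h3 : Real.exp (-(N : ℝ) * nsq (fun a => x a - s * pt φ (fun p => Cay (v p)) a)) ≤ 1 := by
      rw [Real.exp_le_one_iff]
      have := nsq_nonneg' (fun a => x a - s * pt φ (fun p => Cay (v p)) a)
      have h4 : (0 : ℝ) ≤ N := Nat.cast_nonneg N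
      nlinarith [mul_nonneg h4 this]
    rw [Real.norm_of_nonneg (by positivity)]
    calc _ ≤ 1 * ∏ p, rho (v p) := mul_le_mul_of_nonneg_right h3 h2
      _ = _ := one_mul _

/-- One component is a lower bound. -/
theorem av_le_psi (K N : ℕ) (x : (Fin K × Fin 2 → Fin 3) → ℝ) :
    AV K (fun O => Real.exp (-(N : ℝ) * nsq (fun a => x a - 1 * pt (Equiv.refl _) O a))) ≤
      Psi K N x := by
  have hnn : ∀ (s : ℤˣ) (π : Equiv.Perm (Fin K × Fin 2)),
      0 ≤ AV K (fun O => Real.exp (-(N : ℝ) * nsq (fun a => x a - ((s : ℤ) : ℝ) * pt π O a))) := by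
    intro s π
    unfold AV
    refine integral_nonneg fun v => ?_
    have h2 : 0 ≤ ∏ p, rho (v p) := Finset.prod_nonneg fun p _ => (rho_pos _).le
    exact mul_nonneg (Real.exp_pos _).le h2
  unfold Psi
  have h1 : AV K (fun O => Real.exp (-(N : ℝ) * nsq (fun a => x a - 1 * pt (Equiv.refl _) O a))) =
      AV K (fun O => Real.exp (-(N : ℝ) * nsq (fun a => x a - (((1 : ℤˣ) : ℤ) : ℝ) *
        pt (1 : Equiv.Perm (Fin K × Fin 2)) O a))) := by
    norm_num
    rfl
  rw [h1]
  calc _ ≤ ∑ π : Equiv.Perm (Fin K × Fin 2),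
        AV K (fun O => Real.exp (-(N : ℝ) * nsq (fun a => x a - (((1 : ℤˣ) : ℤ) : ℝ) * pt π O a))) :=
        Finset.single_le_sum (f := fun π : Equiv.Perm (Fin K × Fin 2) =>
          AV K (fun O => Real.exp (-(N : ℝ) * nsq (fun a => x a - (((1 : ℤˣ) : ℤ) : ℝ) * pt π O a))))
          (fun π _ => hnn 1 π) (Finset.mem_univ 1)
    _ ≤ _ := Finset.single_le_sum (f := fun s : ℤˣ => ∑ π : Equiv.Perm (Fin K × Fin 2),
          AV K (fun O => Real.exp (-(N : ℝ) * nsq (fun a => x a - ((s : ℤ) : ℝ) * pt π O a))))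
          (fun s _ => Finset.sum_nonneg fun π _ => hnn s π) (Finset.mem_univ 1)

/-- The cube. -/
def cube (K : ℕ) (r : ℝ) : Set (Fin K → Fin 3 → ℝ) :=
  Set.pi Set.univ (fun _ => Set.pi Set.univ (fun _ => Set.Icc (-r) r))

theorem vol_cube (K : ℕ) (r : ℝ) (hr : 0 ≤ r) : volume.real (cube K r) = (2 * r) ^ (3 * K) := by
  unfold cube Measure.real
  rw [volume_pi_pi]
  have h1 : ∀ p : Fin K, volume (Set.pi Set.univ (fun _ : Fin 3 => Set.Icc (-r) r)) =
      ENNReal.ofReal ((2 * r) ^ 3) := by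
    intro p
    rw [volume_pi_pi]
    simp only [Real.volume_Icc, Finset.prod_const, Finset.card_univ, Fintype.card_fin]
    rw [← ENNReal.ofReal_pow (by linarith)]
    congr 1
    ring
  rw [Finset.prod_congr rfl fun p _ => h1 p, Finset.prod_const, Finset.card_univ, Fintype.card_fin,
    ← ENNReal.ofReal_pow (by positivity), ENNReal.toReal_ofReal (by positivity), ← pow_mul]

theorem meas_cube (K : ℕ) (r : ℝ) : MeasurableSet (cube K r) := by
  unfold cube
  exact MeasurableSet.univ_pi fun _ => MeasurableSet.univ_pi fun _ => measurableSet_Icc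

theorem cube_nsq {K : ℕ} {r : ℝ} {v : Fin K → Fin 3 → ℝ} (hv : v ∈ cube K r) (p : Fin K) :
    nsq (v p) ≤ 3 * r ^ 2 := by
  unfold cube at hv
  have h1 : ∀ i, v p i ^ 2 ≤ r ^ 2 := by
    intro i
    have h2 : v p i ∈ Set.Icc (-r) r := hv p (Set.mem_univ p) i (Set.mem_univ i)
    exact sq_le_sq' h2.1 h2.2
  unfold nsq
  calc _ ≤ ∑ _i : Fin 3, r ^ 2 := Finset.sum_le_sum fun i _ => h1 i
    _ = _ := by simp

theorem st_LOW1 (hLOC : ST_LOC) (hTANP : ST_TANP) (hAV1 : ST_AV1) : ST_LOW1 := by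
  intro K
  obtain ⟨C, hC, hloc⟩ := hLOC K
  have hLm : ∀ w : Fin K → Fin 3 → ℝ, nsq (Lm w) = 8 / 3 * ∑ p, nsq (w p) := by
    obtain ⟨_, _, _, hw⟩ := hTANP K (fun _ => 0)
    exact fun w => (hw w).2
  -- the size of the cube
  set M : ℝ := 1 + 3 * K + Real.sqrt (8 * K) + Real.sqrt C * (3 * K) with hM
  have hK0 : (0 : ℝ) ≤ K := Nat.cast_nonneg K
  have hs1 : 0 ≤ Real.sqrt (8 * K) := Real.sqrt_nonneg _
  have hs2 : 0 ≤ Real.sqrt C * (3 * K) := by positivity
  have hM1 : 1 ≤ M := by
    rw [hM]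
    linarith
  set ε : ℝ := 1 / (2 * M) with hε
  have hε0 : 0 < ε := by positivity
  have hMε : M * ε = 1 / 2 := by
    rw [hε]
    field_simp
  have hε1 : ε ≤ 1 / 2 := by
    have : 1 * ε ≤ M * ε := mul_le_mul_of_nonneg_right hM1 hε0.le
    linarith
  have h3K : 3 * K * ε ≤ 1 / 2 := by
    have : (3 * K) * ε ≤ M * ε := by
      refine mul_le_mul_of_nonneg_right ?_ hε0.le
      rw [hM]
      linarith
    linarith
  have hsum : Real.sqrt (8 * K) * ε + Real.sqrt C * (3 * K) * ε ≤ 1 / 2 := by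
    have : (Real.sqrt (8 * K) + Real.sqrt C * (3 * K)) * ε ≤ M * ε := by
      refine mul_le_mul_of_nonneg_right ?_ hε0.le
      rw [hM]
      linarith
    linarith
  refine ⟨((4 * Real.pi ^ 2)⁻¹) ^ K * Real.exp (-1) * (2 * ε) ^ (3 * K), by positivity, ?_⟩
  intro N hN x
  have hN1 : (1 : ℝ) ≤ N := by exact_mod_cast hN
  have hN0 : (0 : ℝ) < N := by linarith
  set d : ℝ := Real.sqrt (nsq (fun a => x a - u0 K a)) with hd
  have hd0 : 0 ≤ d := Real.sqrt_nonneg _
  have hd2 : d ^ 2 = nsq (fun a => x a - u0 K a) := Real.sq_sqrt (nsq_nonneg' _)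
  set r : ℝ := ε / N with hr
  have hr0 : 0 ≤ r := by positivity
  have hrε : r ≤ ε := div_le_self hε0.le hN1
  -- the bound on the cube
  have hpt : ∀ v ∈ cube K r, Real.sqrt (nsq (fun a => pt (Equiv.refl _) (fun p => Cay (v p)) a -
      u0 K a)) ≤ 1 / N := by
    intro v hv
    have hS1 : ∑ p, nsq (v p) ≤ 3 * K * r ^ 2 := by
      calc _ ≤ ∑ _p : Fin K, 3 * r ^ 2 := Finset.sum_le_sum fun p _ => cube_nsq hv p
        _ = _ := by simp; ring
    have hS0 : 0 ≤ ∑ p, nsq (v p) := Finset.sum_nonneg fun p _ => nsq_nonneg' _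
    have hr2 : 3 * K * r ^ 2 ≤ 3 * K * ε * r := by
      have : 3 * K * r ≤ 3 * K * ε := mul_le_mul_of_nonneg_left hrε (by positivity)
      have h2 := mul_le_mul_of_nonneg_right this hr0
      calc _ = 3 * K * r * r := by ring
        _ ≤ _ := h2
    have hS2 : ∑ p, nsq (v p) ≤ 1 := by
      have h1 : 3 * K * ε * r ≤ 1 / 2 * r := mul_le_mul_of_nonneg_right h3K hr0
      linarith
    have hl := hloc v hS2
    have h1 : Real.sqrt (nsq (fun a => pt (Equiv.refl _) (fun p => Cay (v p)) a - u0 K a)) ≤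
        Real.sqrt (nsq (fun a => pt (Equiv.refl _) (fun p => Cay (v p)) a - u0 K a - Lm v a)) +
          Real.sqrt (nsq (Lm v)) := by
      have := sqrt_nsq_add
        (fun a => pt (Equiv.refl _) (fun p => Cay (v p)) a - u0 K a - Lm v a) (Lm v)
      simpa using this
    have h2 : Real.sqrt (nsq (fun a => pt (Equiv.refl _) (fun p => Cay (v p)) a - u0 K a - Lm v a)) ≤
        Real.sqrt C * (3 * K) * ε * r := by
      calc _ ≤ Real.sqrt (C * (∑ p, nsq (v p)) ^ 2) := Real.sqrt_le_sqrt hl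
        _ = Real.sqrt C * ∑ p, nsq (v p) := by
          rw [Real.sqrt_mul hC.le, Real.sqrt_sq hS0]
        _ ≤ Real.sqrt C * (3 * K * ε * r) :=
          mul_le_mul_of_nonneg_left (hS1.trans hr2) (Real.sqrt_nonneg _)
        _ = _ := by ring
    have h3 : Real.sqrt (nsq (Lm v)) ≤ Real.sqrt (8 * K) * r := by
      rw [hLm v, Real.sqrt_le_iff]
      refine ⟨by positivity, ?_⟩
      rw [mul_pow, Real.sq_sqrt (by positivity)]
      linarith
    have h4 : Real.sqrt C * (3 * K) * ε * r + Real.sqrt (8 * K) * r ≤ 1 / N := by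
      have h5 : Real.sqrt C * (3 * K) * ε * r ≤ Real.sqrt C * (3 * K) * r := by
        have : Real.sqrt C * (3 * K) * ε ≤ Real.sqrt C * (3 * K) * 1 :=
          mul_le_mul_of_nonneg_left (by linarith) hs2
        calc _ ≤ Real.sqrt C * (3 * K) * 1 * r := mul_le_mul_of_nonneg_right this hr0
          _ = _ := by ring
      have h6 : Real.sqrt C * (3 * K) * r + Real.sqrt (8 * K) * r =
          (Real.sqrt (8 * K) * ε + Real.sqrt C * (3 * K) * ε) / N := by
        rw [hr]
        ring
      have h7 : (Real.sqrt (8 * K) * ε + Real.sqrt C * (3 * K) * ε) / N ≤ 1 / N := by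
        gcongr
        linarith
      linarith
    linarith
  -- the integrand on the cube
  have hint : ∀ v ∈ cube K r, ((4 * Real.pi ^ 2)⁻¹) ^ K *
      Real.exp (-(N : ℝ) * nsq (fun a => x a - u0 K a) - 2 * d - 1) ≤
      Real.exp (-(N : ℝ) * nsq (fun a => x a - 1 * pt (Equiv.refl _) (fun p => Cay (v p)) a)) *
        ∏ p, rho (v p) := by
    intro v hv
    have h1 : Real.sqrt (nsq (fun a => x a - 1 * pt (Equiv.refl _) (fun p => Cay (v p)) a)) ≤
        d + 1 / N := by
      have := sqrt_nsq_add (fun a => x a - u0 K a)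
        (fun a => -(pt (Equiv.refl _) (fun p => Cay (v p)) a - u0 K a))
      rw [nsq_neg' (fun a => pt (Equiv.refl _) (fun p => Cay (v p)) a - u0 K a)] at this
      have e : (fun a => x a - u0 K a + -(pt (Equiv.refl _) (fun p => Cay (v p)) a - u0 K a)) =
          (fun a => x a - 1 * pt (Equiv.refl _) (fun p => Cay (v p)) a) := by
        funext a
        ring
      rw [e] at this
      have h2 := hpt v hv
      linarith
    have h2 : nsq (fun a => x a - 1 * pt (Equiv.refl _) (fun p => Cay (v p)) a) ≤ (d + 1 / N) ^ 2 := by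
      rw [Real.sqrt_le_iff] at h1
      exact h1.2
    have h3 : (N : ℝ) * nsq (fun a => x a - 1 * pt (Equiv.refl _) (fun p => Cay (v p)) a) ≤
        N * nsq (fun a => x a - u0 K a) + 2 * d + 1 := by
      have h4 := mul_le_mul_of_nonneg_left h2 hN0.le
      have h5 : (N : ℝ) * (d + 1 / N) ^ 2 = N * d ^ 2 + 2 * d + 1 / N := by
        field_simp
        ring
      have h6 : (1 : ℝ) / N ≤ 1 := by
        rw [div_le_one hN0]
        exact hN1
      rw [← hd2]
      linarith
    have h4 : Real.exp (-(N : ℝ) * nsq (fun a => x a - u0 K a) - 2 * d - 1) ≤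
        Real.exp (-(N : ℝ) * nsq (fun a => x a - 1 * pt (Equiv.refl _) (fun p => Cay (v p)) a)) := by
      refine Real.exp_le_exp.mpr ?_
      linarith
    have h5 : ((4 * Real.pi ^ 2)⁻¹) ^ K ≤ ∏ p, rho (v p) := by
      have h6 : ∀ p, (4 * Real.pi ^ 2)⁻¹ ≤ rho (v p) := by
        intro p
        unfold rho
        have h7 : nsq (v p) ≤ 1 := by
          have h8 := cube_nsq hv p
          have h9 : r ^ 2 ≤ (1 / 2) ^ 2 := by
            refine pow_le_pow_left₀ hr0 ?_ 2
            linarith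
          linarith
        have h0 := nsq_nonneg' (v p)
        have hpi := Real.pi_pos
        refine inv_anti₀ (by positivity) ?_
        have h10 : (1 + nsq (v p)) ^ 2 ≤ 4 := by nlinarith
        have h11 : 0 ≤ Real.pi ^ 2 := by positivity
        nlinarith [mul_le_mul_of_nonneg_left h10 h11]
      calc ((4 * Real.pi ^ 2)⁻¹) ^ K = ∏ _p : Fin K, (4 * Real.pi ^ 2)⁻¹ := by simp
        _ ≤ _ := Finset.prod_le_prod (fun p _ => by positivity) fun p _ => h6 p
    calc _ ≤ (∏ p, rho (v p)) *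
          Real.exp (-(N : ℝ) * nsq (fun a => x a - 1 * pt (Equiv.refl _) (fun p => Cay (v p)) a)) :=
          mul_le_mul h5 h4 (Real.exp_pos _).le (Finset.prod_nonneg fun p _ => (rho_pos _).le)
      _ = _ := mul_comm _ _
  -- integration
  refine le_trans ?_ (av_le_psi K N x)
  unfold AV
  have hI := integrable_psi hAV1 (Equiv.refl (Fin K × Fin 2)) 1 N x
  have hfin : volume (cube K r) ≠ ⊤ := by
    intro h
    have h1 := vol_cube K r hr0
    unfold Measure.real at h1
    rw [h] at h1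
    have hr1 : 0 < r := by positivity
    have h2 : 0 < (2 * r) ^ (3 * K) := by positivity
    rw [← h1] at h2
    simp at h2
  have h1 : ∫ v in cube K r, ((4 * Real.pi ^ 2)⁻¹) ^ K *
      Real.exp (-(N : ℝ) * nsq (fun a => x a - u0 K a) - 2 * d - 1) ≤
      ∫ v in cube K r, Real.exp (-(N : ℝ) *
        nsq (fun a => x a - 1 * pt (Equiv.refl _) (fun p => Cay (v p)) a)) * ∏ p, rho (v p) := by
    refine setIntegral_mono_on ?_ hI.integrableOn (meas_cube K r) hint
    exact integrableOn_const hfin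
  have h2 : ∫ v in cube K r, Real.exp (-(N : ℝ) *
        nsq (fun a => x a - 1 * pt (Equiv.refl _) (fun p => Cay (v p)) a)) * ∏ p, rho (v p) ≤
      ∫ v : Fin K → Fin 3 → ℝ, Real.exp (-(N : ℝ) *
        nsq (fun a => x a - 1 * pt (Equiv.refl _) (fun p => Cay (v p)) a)) * ∏ p, rho (v p) := by
    refine setIntegral_le_integral hI (Filter.Eventually.of_forall fun v => ?_)
    have h2 : 0 ≤ ∏ p, rho (v p) := Finset.prod_nonneg fun p _ => (rho_pos _).le
    exact mul_nonneg (Real.exp_pos _).le h2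
  rw [setIntegral_const, vol_cube K r hr0, smul_eq_mul] at h1
  refine le_trans (le_of_eq ?_) (h1.trans h2)
  have e1 : Real.exp (-(N : ℝ) * nsq (fun a => x a - u0 K a) - 2 * d - 1) =
      Real.exp (-(N : ℝ) * nsq (fun a => x a - u0 K a) - 2 * d) * Real.exp (-1) := by
    rw [← Real.exp_add]
    congr 1
  have e2 : (2 * r) ^ (3 * K) = (2 * ε) ^ (3 * K) / (N : ℝ) ^ (3 * K) := by
    rw [hr, ← div_pow]
    congr 1
    ring
  rw [e1, e2]
  ring

end Pool.Agent.Helper37.T5
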