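import Pool.Agent.Helper46.T5.Stmts

set_option autoImplicit false

/-!
MP_2f9829_co (T5): the values of the form at the products (module PTV).
-/

open Finset MeasureTheory Filter Topology

namespace Pool.Agent.Helper37.T5

open Pool.Agent.Helper15.T4
open Pool.Agent.Helper46.T5

/-- Sums over the labels of the replicas of a product over the pairs. -/
theorem sum_prod_pair {R : Type} [CommRing R] {J : Type} [Fintype J] [DecidableEq J] {K : ℕ}
    (φ : Fin K × Fin 2 ≃ J) (F : Fin K → Fin 3 → Fin 3 → R) :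
    ∑ a : J → Fin 3, ∏ p, F p (a (φ (p, 0))) (a (φ (p, 1))) = ∏ p, ∑ i, ∑ j, F p i j := by
  classical
  let e : (J → Fin 3) ≃ (Fin K → Fin 3 × Fin 3) :=
    { toFun := fun a p => (a (φ (p, 0)), a (φ (p, 1)))
      invFun := fun b j => if (φ.symm j).2 = 0 then (b (φ.symm j).1).1 else (b (φ.symm j).1).2
      left_inv := by
        intro a
        funext j
        have h : ∀ q : Fin K × Fin 2, (if q.2 = 0 then a (φ (q.1, 0)) else a (φ (q.1, 1))) = a (φ q) := by
          rintro ⟨p, i⟩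
          fin_cases i
          · simp
          · simp
        have := h (φ.symm j)
        simpa using this
      right_inv := by
        intro b
        funext p
        simp }
  have h1 : ∑ a : J → Fin 3, ∏ p, F p (a (φ (p, 0))) (a (φ (p, 1))) =
      ∑ b : Fin K → Fin 3 × Fin 3, ∏ p, F p (b p).1 (b p).2 :=
    Fintype.sum_equiv e _ _ (fun a => rfl)
  rw [h1]
  have h2 := Finset.prod_univ_sum (fun _ : Fin K => (univ : Finset (Fin 3 × Fin 3)))
    (fun p b => F p b.1 b.2)
  rw [Fintype.piFinset_univ] at h2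
  rw [← h2]
  refine Finset.prod_congr rfl fun p _ => ?_
  rw [Fintype.sum_prod_type]

/-- The product over the replicas as a product over the pairs. -/
theorem prod_pair {R : Type} [CommRing R] {J : Type} [Fintype J] {K : ℕ}
    (φ : Fin K × Fin 2 ≃ J) (g : J → R) :
    ∏ j, g j = ∏ p, g (φ (p, 0)) * g (φ (p, 1)) := by
  rw [← φ.prod_comp, Fintype.prod_prod_type]
  refine Finset.prod_congr rfl fun p _ => ?_
  rw [Fin.prod_univ_two]

/-- Cofactors of a rotation. -/
theorem cof (O : M3) (hO : SO3 O) (c d : Fin 3) :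
    ∑ i, ∑ j, ∑ k, ∑ l, ((eps i k c : ℤ) : ℝ) * ((eps j l d : ℤ) : ℝ) * (O i j * O k l) =
      2 * O c d := by
  have h1 : O.adjugate = O.transpose := by
    have h2 : O.adjugate * O = 1 := by rw [Matrix.adjugate_mul, hO.2, one_smul]
    calc O.adjugate = O.adjugate * (O * O.transpose) := by rw [hO.1, mul_one]
      _ = O.transpose := by rw [← mul_assoc, h2, one_mul]
  have h3 : O.adjugate d c = O c d := by rw [h1, Matrix.transpose_apply]
  rw [← h3, Matrix.adjugate_fin_three]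
  fin_cases c <;> fin_cases d <;>
    simp [Fin.sum_univ_three, eps] <;> ring

theorem qq_eq : (1 : ℝ) / Real.sqrt 3 * (1 / Real.sqrt 3) * 2 = qq * (1 / Real.sqrt 3) := by
  unfold qq
  ring

theorem tj_pt {J : Type} [Fintype J] [DecidableEq J] {K : ℕ} (φ : Fin K × Fin 2 ≃ J)
    (O : Fin K → M3) (hO : ∀ p, SO3 (O p)) (h : (J → Fin 3) → ℝ) :
    TJ J (pt φ O) (pt φ O) h = qq ^ K * ip (pt φ O) h := by
  have key : ∀ c : J → Fin 3, ∑ a : J → Fin 3, ∑ b : J → Fin 3,
      (∏ j, ((eps (a j) (b j) (c j) : ℤ) : ℝ)) * pt φ O a * pt φ O b = qq ^ K * pt φ O c := by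
    intro c
    have e1 : ∀ a b : J → Fin 3, (∏ j, ((eps (a j) (b j) (c j) : ℤ) : ℝ)) * pt φ O a * pt φ O b =
        ∏ p, ((eps (a (φ (p, 0))) (b (φ (p, 0))) (c (φ (p, 0))) : ℤ) : ℝ) *
          ((eps (a (φ (p, 1))) (b (φ (p, 1))) (c (φ (p, 1))) : ℤ) : ℝ) *
          (O p (a (φ (p, 0))) (a (φ (p, 1))) / Real.sqrt 3) *
          (O p (b (φ (p, 0))) (b (φ (p, 1))) / Real.sqrt 3) := by
      intro a b
      rw [prod_pair φ]
      unfold pt
      rw [← Finset.prod_mul_distrib, ← Finset.prod_mul_distrib]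
    have e2 : ∀ a : J → Fin 3, ∑ b : J → Fin 3,
        (∏ j, ((eps (a j) (b j) (c j) : ℤ) : ℝ)) * pt φ O a * pt φ O b =
        ∏ p, ∑ k, ∑ l, ((eps (a (φ (p, 0))) k (c (φ (p, 0))) : ℤ) : ℝ) *
          ((eps (a (φ (p, 1))) l (c (φ (p, 1))) : ℤ) : ℝ) *
          (O p (a (φ (p, 0))) (a (φ (p, 1))) / Real.sqrt 3) * (O p k l / Real.sqrt 3) := by
      intro a
      rw [Finset.sum_congr rfl fun b _ => e1 a b]
      exact sum_prod_pair φ (fun p k l => ((eps (a (φ (p, 0))) k (c (φ (p, 0))) : ℤ) : ℝ) *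
          ((eps (a (φ (p, 1))) l (c (φ (p, 1))) : ℤ) : ℝ) *
          (O p (a (φ (p, 0))) (a (φ (p, 1))) / Real.sqrt 3) * (O p k l / Real.sqrt 3))
    rw [Finset.sum_congr rfl fun a _ => e2 a]
    rw [sum_prod_pair φ (fun p i j => ∑ k, ∑ l, ((eps i k (c (φ (p, 0))) : ℤ) : ℝ) *
          ((eps j l (c (φ (p, 1))) : ℤ) : ℝ) * (O p i j / Real.sqrt 3) * (O p k l / Real.sqrt 3))]
    unfold pt
    have e3 : (qq ^ K : ℝ) = ∏ _p : Fin K, qq := by simp
    rw [e3, ← Finset.prod_mul_distrib]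
    refine Finset.prod_congr rfl fun p _ => ?_
    have e4 := cof (O p) (hO p) (c (φ (p, 0))) (c (φ (p, 1)))
    have e5 : qq * (O p (c (φ (p, 0))) (c (φ (p, 1))) / Real.sqrt 3) =
        (1 / Real.sqrt 3 * (1 / Real.sqrt 3)) * (2 * O p (c (φ (p, 0))) (c (φ (p, 1)))) := by
      have := qq_eq
      calc qq * (O p (c (φ (p, 0))) (c (φ (p, 1))) / Real.sqrt 3) =
          (qq * (1 / Real.sqrt 3)) * O p (c (φ (p, 0))) (c (φ (p, 1))) := by ring
        _ = _ := by rw [← this]; ring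
    rw [e5, ← e4]
    simp only [Finset.mul_sum]
    refine Finset.sum_congr rfl fun i _ => Finset.sum_congr rfl fun j _ =>
      Finset.sum_congr rfl fun k _ => Finset.sum_congr rfl fun l _ => ?_
    ring
  have e0 : TJ J (pt φ O) (pt φ O) h = ∑ c : J → Fin 3, (∑ a : J → Fin 3, ∑ b : J → Fin 3,
      (∏ j, ((eps (a j) (b j) (c j) : ℤ) : ℝ)) * pt φ O a * pt φ O b) * h c := by
    unfold TJ
    calc _ = ∑ a : J → Fin 3, ∑ c : J → Fin 3, ∑ b : J → Fin 3,
        (∏ j, ((eps (a j) (b j) (c j) : ℤ) : ℝ)) * pt φ O a * pt φ O b * h c :=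
          Finset.sum_congr rfl fun a _ => Finset.sum_comm
      _ = _ := by
        rw [Finset.sum_comm]
        refine Finset.sum_congr rfl fun c _ => ?_
        rw [Finset.sum_mul]
        refine Finset.sum_congr rfl fun a _ => ?_
        rw [Finset.sum_mul]
  rw [e0, ip, Finset.mul_sum]
  refine Finset.sum_congr rfl fun c _ => ?_
  rw [key c]
  ring

theorem ip_pt {J : Type} [Fintype J] [DecidableEq J] {K : ℕ} (φ : Fin K × Fin 2 ≃ J)
    (O O' : Fin K → M3) :
    ip (pt φ O) (pt φ O') = ∏ p, ((O p).transpose * O' p).trace / 3 := by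
  have e1 : ∀ a : J → Fin 3, pt φ O a * pt φ O' a =
      ∏ p, (O p (a (φ (p, 0))) (a (φ (p, 1))) / Real.sqrt 3) *
        (O' p (a (φ (p, 0))) (a (φ (p, 1))) / Real.sqrt 3) := by
    intro a
    unfold pt
    rw [← Finset.prod_mul_distrib]
  unfold ip
  rw [Finset.sum_congr rfl fun a _ => e1 a,
    sum_prod_pair φ (fun p i j => (O p i j / Real.sqrt 3) * (O' p i j / Real.sqrt 3))]
  refine Finset.prod_congr rfl fun p _ => ?_
  have h3 : Real.sqrt 3 * Real.sqrt 3 = 3 := Real.mul_self_sqrt (by norm_num)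
  have e2 : ∀ i j, (O p i j / Real.sqrt 3) * (O' p i j / Real.sqrt 3) =
      O p i j * O' p i j / 3 := by
    intro i j
    rw [div_mul_div_comm, h3]
  simp only [e2]
  rw [Matrix.trace, Finset.sum_comm]
  simp only [Matrix.diag, Matrix.mul_apply, Matrix.transpose_apply]
  rw [Finset.sum_div]
  refine Finset.sum_congr rfl fun i _ => ?_
  rw [Finset.sum_div]

theorem st_PTV : ST_PTV := by
  intro K J _ _ φ O O' hO
  have h1 : nsq (pt φ O) = 1 := by
    have e1 : nsq (pt φ O) = ip (pt φ O) (pt φ O) := by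
      unfold nsq ip
      exact Finset.sum_congr rfl fun a _ => by ring
    rw [e1, ip_pt]
    refine Finset.prod_eq_one fun p _ => ?_
    have e2 : (O p).transpose * O p = 1 := by
      have := (hO p).1
      exact mul_eq_one_comm.mp this
    rw [e2, Matrix.trace_one]
    norm_num
  refine ⟨?_, h1, fun h => tj_pt φ O hO h, ip_pt φ O O'⟩
  rw [tj_pt φ O hO]
  have e1 : ip (pt φ O) (pt φ O) = nsq (pt φ O) := by
    unfold nsq ip
    exact Finset.sum_congr rfl fun a _ => by ring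
  rw [e1, h1, mul_one]

end Pool.Agent.Helper37.T5
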